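import Pool.Agent.H97.S4.TabB

/-!
# Union-closed families on four points: table P4c (MP_75f39d)
-/

set_option autoImplicit false

namespace Pool.Agent.H97.S4

theorem g4c : go P4c 16 [] = true := by decide +kernel

end Pool.Agent.H97.S4
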