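import Pool.Agent.H97.S4.TabA
import Pool.Agent.H97.S4.TabB
import Pool.Agent.H97.S4.TabC
import Pool.Agent.H97.S4.TabD
import Pool.Agent.H97.S4.TabE
import Pool.Agent.H97.S4.TabF

/-!
# Union-closed families on four points: the six tables (MP_75f39d), one module each
-/
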