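import Pool.Agent.H97.R4.Abs

/-!
# Union-closed families on four points: the checker (MP_75f39d)
-/

set_option autoImplicit false

namespace Pool.Agent.H97.S4

open Finset Pool.Agent.H97.R4

/-- `k` can be added. -/
def okk (k : ℕ) (fam : List ℕ) : Bool := fam.all fun T => fam.contains (k ||| T)

/-- All union-closed families, from the large masks down. -/
def go (P : (ℕ → Bool) → Bool) : ℕ → List ℕ → Bool
  | 0, fam => P fun S => fam.contains S
  | k + 1, fam => go P k fam && (!(okk k fam) || go P k (k :: fam))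

lemma go_sound (P : (ℕ → Bool) → Bool) (p : ℕ → Bool) (hU : ∀ S T, p S = true → p T = true → p (S ||| T) = true) :
    ∀ k, ∀ fam : List ℕ, (∀ S, S ∈ fam ↔ k ≤ S ∧ p S = true) → go P k fam = true → P p = true := by
  intro k
  induction k with
  | zero =>
    intro fam hfam h
    unfold go at h
    have : (fun S => fam.contains S) = p := by
      funext S
      by_cases hS : p S = true
      · rw [hS, List.contains_iff_mem, hfam]
        exact ⟨Nat.zero_le _, hS⟩
      · rw [Bool.not_eq_true] at hS
        rw [hS, ← Bool.not_eq_true, List.contains_iff_mem, hfam]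
        rintro ⟨_, h'⟩
        rw [hS] at h'
        exact absurd h' (by decide)
    rw [this] at h
    exact h
  | succ k ih =>
    intro fam hfam h
    unfold go at h
    rw [Bool.and_eq_true, Bool.or_eq_true, Bool.not_eq_true'] at h
    obtain ⟨h1, h2⟩ := h
    by_cases hk : p k = true
    · have hok : okk k fam = true := by
        unfold okk
        rw [List.all_eq_true]
        intro T hT
        obtain ⟨hkT, hpT⟩ := (hfam T).1 hT
        rw [List.contains_iff_mem, hfam]
        refine ⟨?_, hU k T hk hpT⟩
        exact hkT.trans Nat.right_le_or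
      rcases h2 with h2 | h2
      · rw [hok] at h2
        exact absurd h2 (by decide)
      · apply ih (k :: fam) _ h2
        intro S
        rw [List.mem_cons, hfam]
        constructor
        · rintro (rfl | ⟨h3, h4⟩)
          · exact ⟨le_refl _, hk⟩
          · exact ⟨by omega, h4⟩
        · rintro ⟨h3, h4⟩
          rcases Nat.lt_or_ge k S with h5 | h5
          · exact Or.inr ⟨h5, h4⟩
          · exact Or.inl (by omega)
    · apply ih fam _ h1
      intro S
      rw [hfam]
      constructor
      · rintro ⟨h3, h4⟩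
        exact ⟨by omega, h4⟩
      · rintro ⟨h3, h4⟩
        refine ⟨?_, h4⟩
        rcases Nat.lt_or_ge k S with h5 | h5
        · exact h5
        · exfalso
          have : S = k := by omega
          rw [this] at h4
          exact hk h4

/-- The checker. -/
lemma check (P : (ℕ → Bool) → Bool) (h : go P 16 [] = true) (p : ℕ → Bool)
    (h16 : ∀ S, p S = true → S < 16)
    (hU : ∀ S T, p S = true → p T = true → p (S ||| T) = true) : P p = true := by
  apply go_sound P p hU 16 [] _ h
  intro S
  constructor
  · intro h'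
    exact absurd h' (List.not_mem_nil)
  · rintro ⟨h1, h2⟩
    have := h16 S h2
    omega

/-- The number of bits. -/
def pc (S : ℕ) : ℕ :=
  (if S.testBit 0 then 1 else 0) + (if S.testBit 1 then 1 else 0) + (if S.testBit 2 then 1 else 0)
    + (if S.testBit 3 then 1 else 0)

section

variable {β : Type*} [DecidableEq β]

/-- The decoding. -/
def D (f : ℕ → β) (S : ℕ) : Finset β := ((Finset.range 4).filter fun i => S.testBit i).image f

variable {f : ℕ → β} {C : Finset β} {M : Finset β → Prop}

lemma D_or (S T : ℕ) : D f (S ||| T) = D f S ∪ D f T := by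
  unfold D
  rw [← Finset.image_union, ← Finset.filter_or]
  congr 1
  apply Finset.filter_congr
  intro i _
  rw [Nat.testBit_or, Bool.or_eq_true]

lemma mem_D (hf : Set.InjOn f (Finset.range 4 : Finset ℕ)) {i S : ℕ} (hi : i < 4) :
    f i ∈ D f S ↔ S.testBit i = true := by
  unfold D
  rw [Finset.mem_image]
  constructor
  · rintro ⟨j, hj, he⟩
    rw [Finset.mem_filter, Finset.mem_range] at hj
    have : j = i := hf (by simpa using hj.1) (by simpa using hi) he
    rw [← this]
    exact hj.2
  · intro h
    exact ⟨i, Finset.mem_filter.2 ⟨Finset.mem_range.2 hi, h⟩, rfl⟩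

lemma D_card (hf : Set.InjOn f (Finset.range 4 : Finset ℕ)) (S : ℕ) : (D f S).card = pc S := by
  unfold D
  rw [Finset.card_image_of_injOn (hf.mono (by
    intro i hi
    exact (Finset.mem_filter.1 hi).1))]
  rw [Finset.card_filter]
  simp only [Finset.sum_range_succ, Finset.sum_range_zero]
  unfold pc
  ring

lemma D_sub (hC : (Finset.range 4).image f = C) (S : ℕ) : D f S ⊆ C := by
  rw [← hC]
  exact Finset.image_subset_image (Finset.filter_subset _ _)

lemma D_top (hC : (Finset.range 4).image f = C) : D f 15 = C := by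
  rw [← hC]
  unfold D
  congr 1

lemma D_zero : D f 0 = ∅ := by
  unfold D
  rw [Finset.filter_false_of_mem, Finset.image_empty]
  intro i _
  simp

lemma D_surj (hC : (Finset.range 4).image f = C) {T : Finset β} (hT : T ⊆ C) :
    ∃ S < 16, D f S = T := by
  have key : ∀ U ∈ (Finset.range 4).powerset, ∃ S < 16,
      ((Finset.range 4).filter fun i => Nat.testBit S i) = U := by decide
  rw [← hC] at hT
  obtain ⟨U, hU, rfl⟩ := Finset.subset_image_iff.1 hT
  obtain ⟨S, hS, he⟩ := key U (Finset.mem_powerset.2 (by exact_mod_cast hU))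
  refine ⟨S, hS, ?_⟩
  unfold D
  rw [he]

lemma E_inj : ∀ S < 16, ∀ S' < 16, ((Finset.range 4).filter fun i => Nat.testBit S i)
    = ((Finset.range 4).filter fun i => Nat.testBit S' i) → S = S' := by decide

lemma D_inj (hf : Set.InjOn f (Finset.range 4 : Finset ℕ)) {S S' : ℕ} (hS : S < 16)
    (hS' : S' < 16) (h : D f S = D f S') : S = S' := by
  apply E_inj S hS S' hS'
  ext i
  rw [Finset.mem_filter, Finset.mem_filter]
  constructor
  · rintro ⟨h1, h2⟩
    refine ⟨h1, ?_⟩
    have h3 := Finset.mem_range.1 h1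
    rw [← mem_D hf h3, ← h, mem_D hf h3]
    exact h2
  · rintro ⟨h1, h2⟩
    refine ⟨h1, ?_⟩
    have h3 := Finset.mem_range.1 h1
    rw [← mem_D hf h3, h, mem_D hf h3]
    exact h2

lemma sum_D (hf : Set.InjOn f (Finset.range 4 : Finset ℕ)) (hC : (Finset.range 4).image f = C)
    {γ : Type*} [AddCommMonoid γ] (g : Finset β → γ) :
    ∑ T ∈ C.powerset, g T = ∑ S ∈ Finset.range 16, g (D f S) := by
  symm
  apply Finset.sum_bij (fun S _ => D f S)
  · intro S _
    exact Finset.mem_powerset.2 (D_sub hC S)
  · intro S hS S' hS' h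
    exact D_inj hf (Finset.mem_range.1 hS) (Finset.mem_range.1 hS') h
  · intro T hT
    obtain ⟨S, hS, he⟩ := D_surj hC (Finset.mem_powerset.1 hT)
    exact ⟨S, Finset.mem_range.2 hS, he⟩
  · intro S _
    rfl

lemma exists_f (h4 : C.card = 4) : ∃ f : ℕ → β, Set.InjOn f (Finset.range 4 : Finset ℕ) ∧
    (Finset.range 4).image f = C := by
  obtain ⟨a, b, c, d, hab, hac, had, hbc, hbd, hcd, rfl⟩ := Finset.card_eq_four.1 h4
  refine ⟨fun i => if i = 0 then a else if i = 1 then b else if i = 2 then c else d, ?_, ?_⟩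
  · intro i hi j hj h
    have hi' : i < 4 := by simpa using hi
    have hj' : j < 4 := by simpa using hj
    interval_cases i <;> interval_cases j <;> simp_all
  · ext z
    simp only [Finset.mem_image, Finset.mem_range, Finset.mem_insert, Finset.mem_singleton]
    constructor
    · rintro ⟨i, hi, rfl⟩
      interval_cases i <;> simp
    · rintro (rfl | rfl | rfl | rfl)
      · exact ⟨0, by omega, by simp⟩
      · exact ⟨1, by omega, by simp⟩
      · exact ⟨2, by omega, by simp⟩
      · exact ⟨3, by omega, by simp⟩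

open scoped Classical in
/-- The mask function of `M`. -/
noncomputable def pp (f : ℕ → β) (M : Finset β → Prop) (S : ℕ) : Bool :=
  decide (S < 16 ∧ M (D f S))

lemma pp_iff {S : ℕ} : pp f M S = true ↔ S < 16 ∧ M (D f S) := by
  classical
  unfold pp
  exact decide_eq_true_iff

lemma or_lt {S T : ℕ} (hS : S < 16) (hT : T < 16) : S ||| T < 16 :=
  Nat.or_lt_two_pow (n := 4) (by omega) (by omega)

/-- The checker for `M`. -/
lemma check' (P : (ℕ → Bool) → Bool) (h : go P 16 [] = true)
    (hU : ∀ S S', M S → M S' → M (S ∪ S')) : P (pp f M) = true := by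
  apply check P h
  · intro S hS
    exact (pp_iff.1 hS).1
  · intro S T hS hT
    obtain ⟨h1, h2⟩ := pp_iff.1 hS
    obtain ⟨h3, h4⟩ := pp_iff.1 hT
    refine pp_iff.2 ⟨or_lt h1 h3, ?_⟩
    rw [D_or]
    exact hU _ _ h2 h4

/-- A bit. -/
def bt (x : Bool) : ℕ := if x then 1 else 0

/-- The positive part of the value. -/
def pos (p : ℕ → Bool) : ℕ := 2 * (bt (p 7) + bt (p 11) + bt (p 13) + bt (p 14)) + 4 * bt (p 15)

/-- The negative part of the value. -/
def neg (p : ℕ → Bool) : ℕ := 4 * bt (p 0) + 2 * (bt (p 1) + bt (p 2) + bt (p 4) + bt (p 8))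

lemma bM_val (hf : Set.InjOn f (Finset.range 4 : Finset ℕ)) (hC : (Finset.range 4).image f = C)
    (h4 : C.card = 4) : bM M C = (pos (pp f M) : ℤ) - neg (pp f M) := by
  classical
  have h1 : bM M C = ∑ S ∈ Finset.range 16,
      (bt (pp f M S) : ℤ) * (2 * (pc S : ℤ) - 4) := by
    unfold bM
    rw [sum_D hf hC]
    apply Finset.sum_congr rfl
    intro S hS
    have hS' := Finset.mem_range.1 hS
    by_cases hM : M (D f S)
    · rw [if_pos hM, pp_iff.2 ⟨hS', hM⟩, D_card hf, h4]
      unfold bt
      norm_num
    · have : pp f M S = false := by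
        rw [← Bool.not_eq_true]
        exact fun h => hM (pp_iff.1 h).2
      rw [if_neg hM, this]
      unfold bt
      norm_num
  rw [h1]
  simp only [Finset.sum_range_succ, Finset.sum_range_zero]
  have e : ∀ S < 16, pc S = [0, 1, 1, 2, 1, 2, 2, 3, 1, 2, 2, 3, 2, 3, 3, 4].getD S 0 := by decide
  rw [e 0 (by omega), e 1 (by omega), e 2 (by omega), e 3 (by omega), e 4 (by omega),
    e 5 (by omega), e 6 (by omega), e 7 (by omega), e 8 (by omega), e 9 (by omega),
    e 10 (by omega), e 11 (by omega), e 12 (by omega), e 13 (by omega), e 14 (by omega),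
    e 15 (by omega)]
  unfold pos neg
  simp only [List.getD_cons_zero, List.getD_cons_succ]
  push_cast
  ring

/-- The forced points. -/
def fob (p : ℕ → Bool) (i : ℕ) : Bool := (List.range 16).all fun S => !(p S) || S.testBit i

/-- The number of forced points. -/
def foc (p : ℕ → Bool) : ℕ := bt (fob p 0) + bt (fob p 1) + bt (fob p 2) + bt (fob p 3)

lemma fob_iff (hf : Set.InjOn f (Finset.range 4 : Finset ℕ)) (hC : (Finset.range 4).image f = C)
    {i : ℕ} (hi : i < 4) : fob (pp f M) i = true ↔ f i ∈ FoM M C := by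
  unfold fob
  rw [List.all_eq_true, mem_FoM]
  constructor
  · intro h
    refine ⟨by rw [← hC]; exact Finset.mem_image_of_mem f (Finset.mem_range.2 hi), ?_⟩
    intro T hT hM
    obtain ⟨S, hS, rfl⟩ := D_surj hC hT
    have := h S (List.mem_range.2 hS)
    rw [Bool.or_eq_true, Bool.not_eq_true', mem_D hf hi] at *
    rcases this with h' | h'
    · rw [← Bool.not_eq_true] at h'
      exact absurd (pp_iff.2 ⟨hS, hM⟩) h'
    · exact h'
  · rintro ⟨_, h⟩ S hS
    rw [Bool.or_eq_true, Bool.not_eq_true']
    by_cases hp : pp f M S = true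
    · right
      rw [← mem_D hf hi]
      exact h _ (D_sub hC S) (pp_iff.1 hp).2
    · left
      rw [← Bool.not_eq_true]
      exact hp

lemma card_filter_range (hf : Set.InjOn f (Finset.range 4 : Finset ℕ))
    (hC : (Finset.range 4).image f = C) (q : β → Prop) [DecidablePred q] (b : ℕ → Bool)
    (h : ∀ i < 4, (b i = true ↔ q (f i))) :
    (C.filter q).card = bt (b 0) + bt (b 1) + bt (b 2) + bt (b 3) := by
  rw [← hC, Finset.filter_image, Finset.card_image_of_injOn (hf.mono (by
    intro i hi
    exact (Finset.mem_filter.1 hi).1)), Finset.card_filter]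
  simp only [Finset.sum_range_succ, Finset.sum_range_zero]
  have e : ∀ i < 4, (if q (f i) then 1 else 0) = bt (b i) := by
    intro i hi
    unfold bt
    by_cases hq : q (f i)
    · rw [if_pos hq, if_pos ((h i hi).2 hq)]
    · rw [if_neg hq, if_neg (fun h' => hq ((h i hi).1 h'))]
  rw [e 0 (by omega), e 1 (by omega), e 2 (by omega), e 3 (by omega)]
  ring

lemma foc_eq (hf : Set.InjOn f (Finset.range 4 : Finset ℕ)) (hC : (Finset.range 4).image f = C) :
    (FoM M C).card = foc (pp f M) := by
  classical
  have h0 : FoM M C = C.filter fun p => p ∈ FoM M C := by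
    ext p
    rw [Finset.mem_filter]
    exact ⟨fun h => ⟨(mem_FoM.1 h).1, h⟩, fun h => h.2⟩
  rw [h0]
  exact card_filter_range hf hC _ (fob (pp f M)) (fun i hi => fob_iff hf hC hi)

lemma f_surj (hC : (Finset.range 4).image f = C) {r : β} (hr : r ∈ C) : ∃ i < 4, f i = r := by
  rw [← hC, Finset.mem_image] at hr
  obtain ⟨i, hi, he⟩ := hr
  exact ⟨i, Finset.mem_range.1 hi, he⟩

lemma f_mem (hC : (Finset.range 4).image f = C) {i : ℕ} (hi : i < 4) : f i ∈ C := by
  rw [← hC]
  exact Finset.mem_image_of_mem f (Finset.mem_range.2 hi)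

/-- Private points. -/
def pvb (p : ℕ → Bool) (i : ℕ) : Bool :=
  (List.range 16).all fun S => !(p S) || !(S.testBit i) || S == 15

lemma pvb_iff (hf : Set.InjOn f (Finset.range 4 : Finset ℕ)) (hC : (Finset.range 4).image f = C)
    {i : ℕ} (hi : i < 4) : pvb (pp f M) i = true ↔
      (f i ∈ C ∧ ∀ T, T ⊆ C → M T → f i ∈ T → T = C) := by
  unfold pvb
  rw [List.all_eq_true]
  constructor
  · intro h
    refine ⟨f_mem hC hi, ?_⟩
    intro T hT hM hr
    obtain ⟨S, hS, rfl⟩ := D_surj hC hT
    have h1 := h S (List.mem_range.2 hS)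
    rw [pp_iff.2 ⟨hS, hM⟩, (mem_D hf hi).1 hr] at h1
    have h2 : S = 15 := by simpa using h1
    rw [h2, D_top hC]
  · rintro ⟨_, h⟩ S hS
    by_cases hp : pp f M S = true
    · by_cases hb : S.testBit i = true
      · have h1 := h (D f S) (D_sub hC S) (pp_iff.1 hp).2 ((mem_D hf hi).2 hb)
        have h2 : S = 15 := by
          apply D_inj hf (pp_iff.1 hp).1 (by omega)
          rw [h1, D_top hC]
        rw [h2]
        simp
      · rw [Bool.not_eq_true] at hb
        rw [hb]
        simp
    · rw [Bool.not_eq_true] at hp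
      rw [hp]
      simp

end

end Pool.Agent.H97.S4
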