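import Pool.Agent.H97.S4.Mach

/-!
# Union-closed families on four points: tables (MP_75f39d)
-/

set_option autoImplicit false

namespace Pool.Agent.H97.S4

open Finset Pool.Agent.H97.R4

/-- The number of pairs `(x, τ)`. -/
def gcb (p : ℕ → Bool) : ℕ :=
  bt (p 1) + bt (p 2) + bt (p 4) + bt (p 8) +
    2 * (bt (p 3 && !(p 1) && !(p 2)) + bt (p 5 && !(p 1) && !(p 4))
      + bt (p 9 && !(p 1) && !(p 8)) + bt (p 6 && !(p 2) && !(p 4))
      + bt (p 10 && !(p 2) && !(p 8)) + bt (p 12 && !(p 4) && !(p 8)))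

def P4a (p : ℕ → Bool) : Bool := !(p 15) || p 0 || decide (neg p ≤ pos p)

def P4b (p : ℕ → Bool) : Bool :=
  !(p 15) || p 0 || !(pos p == neg p) || ((pvb p 0 || pvb p 1 || pvb p 2 || pvb p 3)
    && foc p == 0 && (List.range 16).all fun S => !(p S) || (S.testBit 0 && p 1) ||
      (S.testBit 1 && p 2) || (S.testBit 2 && p 4) || (S.testBit 3 && p 8))

def P4c (p : ℕ → Bool) : Bool :=
  !(p 15) || p 0 || !(decide (neg p < pos p)) ||
    decide (gcb p + foc p + 2 * neg p ≤ 2 * pos p)

def P5a (p : ℕ → Bool) : Bool :=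
  !(p 15) || decide (neg p ≤ pos p) ||
  (List.range 4).all fun i => (List.range 4).all fun j => i == j ||
    !((List.range 16).all fun S => S.testBit i || p S) || !(p (2 ^ i ||| 2 ^ j))

def P5b (p : ℕ → Bool) : Bool :=
  !(p 15) || decide (2 + neg p ≤ pos p) ||
  (List.range 4).all fun i => p (2 ^ i) ||
    !((List.range 16).all fun S => S.testBit i || p S) ||
    (List.range 4).all fun j => i == j || !(p (2 ^ j ||| 2 ^ i)) ||
      (List.range 4).all fun k => k == i || k == j || !(p (2 ^ k ||| 2 ^ i))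

def P5c (p : ℕ → Bool) : Bool :=
  !(p 15) || p 0 || decide (neg p < pos p) ||
  (List.range 4).all fun i => p (2 ^ i) ||
    (List.range 4).all fun j => i == j || p (2 ^ j) ||
    !((List.range 16).all fun S => p ((2 ^ j ||| 2 ^ i) ||| S))

end Pool.Agent.H97.S4
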